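import Pool.Agent.Helper33_GRA.Sl2

/-!
# GRA squad, row MK6: `K ≥ 6 (1 - P)` on the symmetric torus invariant vectors
-/

set_option autoImplicit false

open MeasureTheory Matrix Finset
open scoped ComplexConjugate

namespace Pool.Agent.GRA.H33

open Pool.Agent.Helper64_FR Pool.Agent.UTR Pool.Agent.BSE

theorem nrm {H : Type} [NormedAddCommGroup H] [InnerProductSpace ℂ H] {E F : H →L[ℂ] H}
    (hadj : ∀ v w, (inner ℂ (E v) w : ℂ) = inner ℂ v (F w)) {v : H} {c : ℝ}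
    (h : F (E v) = (c : ℂ) • v) : ‖E v‖ ^ 2 = c * ‖v‖ ^ 2 := by
  have h1 : (inner ℂ (E v) (E v) : ℂ) = (c : ℂ) * inner ℂ v v := by
    rw [hadj, h, inner_smul_right]
  rw [inner_self_eq_norm_sq_to_K, inner_self_eq_norm_sq_to_K] at h1
  have h2 : ((‖E v‖ ^ 2 : ℝ) : ℂ) = ((c * ‖v‖ ^ 2 : ℝ) : ℂ) := by
    push_cast
    exact h1
  exact Complex.ofReal_injective h2

theorem mk6 (msh : MSHStmt) (mpa : MPAStmt) : MK6Stmt := by
  classical
  intro n ρ D hD a b hab f hf hsf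
  obtain ⟨m1, m2, m3, -, -, -⟩ := msh n ρ D hD
  have S := sl_of_der hD hab
  have S' := S.flip (adj_ap hD b b)
  have hPE0 : ∀ v, ρ.P {a, b} (D (EE a b) v) = 0 := by
    intro v
    have h1 : D (EE b a) * ρ.P {a, b} = 0 :=
      DERP_proof FIX_proof n ρ D hD {a, b} b a (by simp) (by simp)
    have h2 : ∀ w, D (EE b a) (ρ.P {a, b} w) = 0 := fun w =>
      congrArg (fun T : ρ.Sp →L[ℂ] ρ.Sp => T w) h1
    have h3 : ∀ w, (inner ℂ (ρ.P {a, b} (D (EE a b) v)) w : ℂ) = 0 := by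
      intro w
      have h4 : (inner ℂ (ρ.P {a, b} (D (EE a b) v)) w : ℂ)
          = inner ℂ (D (EE a b) v) (ρ.P {a, b} w) := by
        conv_lhs => rw [← (FIX_proof n ρ {a, b}).2.2.1, ContinuousLinearMap.star_eq_adjoint,
          ContinuousLinearMap.adjoint_inner_left]
      rw [h4, adj_ap hD, h2, inner_zero_right]
    exact inner_self_eq_zero.mp (h3 _)
  have hgen : ∀ v, D (EE a a) v = 0 → D (EE b b) v = 0 → D (EE a b) v = 0 → D (EE b a) v = 0 →
      ρ.P {a, b} v = v := by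
    intro v h1 h2 h3 h4
    refine (FIX_proof n ρ {a, b}).2.1 v (H27.gen n ρ D hD {a, b} v ?_)
    intro i hi j hj
    rw [Finset.mem_insert, Finset.mem_singleton] at hi hj
    rcases hi with rfl | rfl <;> rcases hj with rfl | rfl <;> assumption
  have hw0 : ∀ v, TInv ρ v → ∀ i, D (EE i i) v = 0 := by
    intro v hv i
    have h1 := (m2 v).1 hv i
    rwa [Complex.ofReal_zero, zero_smul] at h1
  have hKinv : ∀ v, TInv ρ v → TInv ρ (D (EE a b) (D (EE b a) v)) := by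
    intro v hv
    have h1 := m1 _ _ a b (m1 _ v b a ((m2 v).1 hv))
    rw [m2]
    have h2 : (fun i : Fin n => (fun i : Fin n => (fun _ : Fin n => (0 : ℝ)) i +
        (if i = b then 1 else 0) - (if i = a then 1 else 0)) i + (if i = a then 1 else 0) -
        (if i = b then 1 else 0)) = fun _ => (0 : ℝ) := by
      funext i
      ring
    rw [← h2]
    exact h1
  have hmpa : ∀ v, TInv ρ v → (D (EE a b) (D (EE b a) v) = (2 : ℂ) • v ∨
      D (EE a b) (D (EE b a) v) = (12 : ℂ) • v) → ρ.op (pm (Equiv.swap a b)) v = v → v = 0 := by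
    intro v hv h1 h2
    have h3 := mpa n ρ D hD a b hab v hv h1
    rw [h2] at h3
    have h4 : (2 : ℂ) • v = 0 := by
      rw [two_smul]
      nth_rewrite 1 [h3]
      rw [neg_add_cancel]
    exact (smul_eq_zero.mp h4).resolve_left two_ne_zero
  change 6 * ‖f - ρ.P {a, b} f‖ ^ 2 ≤ ‖D (EE b a) f‖ ^ 2 ∧
    (D (EE a b) (D (EE a b) (D (EE a b) (D (EE a b) f))) = 0 →
    D (EE a b) (D (EE b a) f) = (6 : ℂ) • (f - ρ.P {a, b} f))
  obtain ⟨E, hE⟩ : ∃ E, E = D (EE a b) := ⟨_, rfl⟩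
  obtain ⟨F, hF⟩ : ∃ F, F = D (EE b a) := ⟨_, rfl⟩
  obtain ⟨A, hAd⟩ : ∃ A, A = D (EE a a) := ⟨_, rfl⟩
  obtain ⟨B, hBd⟩ : ∃ B, B = D (EE b b) := ⟨_, rfl⟩
  obtain ⟨s, hs⟩ : ∃ s, s = ρ.op (pm (Equiv.swap a b)) := ⟨_, rfl⟩
  obtain ⟨P, hP⟩ : ∃ P, P = ρ.P {a, b} := ⟨_, rfl⟩
  have hsE : ∀ v, s (E v) = F (s v) := by
    intro v
    rw [hs, hE, hF, m3, Equiv.swap_apply_left, Equiv.swap_apply_right]
  have hsF : ∀ v, s (F v) = E (s v) := by
    intro v
    rw [hs, hE, hF, m3, Equiv.swap_apply_left, Equiv.swap_apply_right]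
  have hA0 : ∀ v, TInv ρ v → A v = 0 := fun v hv => by rw [hAd]; exact hw0 v hv a
  have hB0 : ∀ v, TInv ρ v → B v = 0 := fun v hv => by rw [hBd]; exact hw0 v hv b
  rw [← hE, ← hF, ← hAd, ← hBd] at S S'
  rw [← hE, ← hP] at hPE0
  rw [← hE, ← hF, ← hAd, ← hBd, ← hP] at hgen
  rw [← hE, ← hF] at hKinv
  rw [← hE, ← hF, ← hs] at hmpa
  rw [← hs] at hsf
  rw [← hE, ← hF, ← hP]
  have hFE : ∀ v, TInv ρ v → F (E v) = E (F v) := by
    intro v hv
    rw [S.FE, hA0 v hv, hB0 v hv, sub_zero, add_zero]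
  -- the subspace
  let V : Submodule ℂ ρ.Sp := TI ρ ⊓ LinearMap.ker ((s : ρ.Sp →ₗ[ℂ] ρ.Sp) - LinearMap.id)
  have hV : ∀ v, v ∈ V ↔ TInv ρ v ∧ s v = v := by
    intro v
    rw [Submodule.mem_inf, LinearMap.mem_ker, LinearMap.sub_apply, sub_eq_zero]
    rfl
  have hKV : ∀ v ∈ V, ((E * F : ρ.Sp →L[ℂ] ρ.Sp) : ρ.Sp →ₗ[ℂ] ρ.Sp) v ∈ V := by
    intro v hv
    obtain ⟨h1, h2⟩ := (hV v).1 hv
    refine (hV _).2 ⟨hKinv v h1, ?_⟩
    change s (E (F v)) = E (F v)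
    rw [hsE, hsF, h2, hFE v h1]
  let T : V →ₗ[ℂ] V := ((E * F : ρ.Sp →L[ℂ] ρ.Sp) : ρ.Sp →ₗ[ℂ] ρ.Sp).restrict hKV
  have hTc : ∀ v : V, ((T v : V) : ρ.Sp) = E (F (v : ρ.Sp)) := fun v => rfl
  have hT : LinearMap.IsSymmetric (𝕜 := ℂ) (E := V) T := by
    intro x y
    rw [Submodule.coe_inner, Submodule.coe_inner, hTc, hTc, S.adj, S.adj']
  obtain ⟨N, hN⟩ : ∃ N, Module.finrank ℂ V = N := ⟨_, rfl⟩
  obtain ⟨bs, hbs⟩ : ∃ bs, bs = hT.eigenvectorBasis hN := ⟨_, rfl⟩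
  obtain ⟨xs, hxs⟩ : ∃ xs, xs = hT.eigenvalues hN := ⟨_, rfl⟩
  have hTe : ∀ i, T (bs i) = (xs i : ℂ) • bs i := by
    intro i
    rw [hbs, hxs]
    exact hT.apply_eigenvectorBasis hN i
  obtain ⟨e, he⟩ : ∃ e : Fin N → ρ.Sp, e = fun i => ((bs i : V) : ρ.Sp) := ⟨_, rfl⟩
  have hei : ∀ i, e i = ((bs i : V) : ρ.Sp) := fun i => by rw [he]
  have heV : ∀ i, TInv ρ (e i) ∧ s (e i) = e i := by
    intro i
    rw [hei]
    exact (hV _).1 (bs i).2
  have hKe : ∀ i, E (F (e i)) = (xs i : ℂ) • e i := by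
    intro i
    rw [hei, ← hTc, hTe]
    rfl
  have hne : ∀ i, e i ≠ 0 := by
    intro i h0
    have h1 : bs i = 0 := Subtype.ext (by rw [← hei, h0]; rfl)
    exact bs.toBasis.ne_zero i (by rw [OrthonormalBasis.coe_toBasis]; exact h1)
  have hnp : ∀ i, 0 < ‖e i‖ ^ 2 := fun i => by
    have := norm_pos_iff.mpr (hne i)
    positivity
  -- the ladder norms
  have hn1 : ∀ i, ‖E (e i)‖ ^ 2 = xs i * ‖e i‖ ^ 2 := fun i =>
    nrm S.adj (by rw [hFE _ (heV i).1, hKe])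
  have hn1' : ∀ i, ‖F (e i)‖ ^ 2 = xs i * ‖e i‖ ^ 2 := fun i => nrm S.adj' (hKe i)
  have hf2 : ∀ i, F (E (E (e i))) = ((xs i - 2 : ℝ) : ℂ) • E (e i) := fun i => by
    rw [S.F2 (hA0 _ (heV i).1) (hB0 _ (heV i).1) (hKe i)]
    push_cast
    rfl
  have hf3 : ∀ i, F (E (E (E (e i)))) = ((xs i - 6 : ℝ) : ℂ) • E (E (e i)) := fun i => by
    rw [S.F3 (hA0 _ (heV i).1) (hB0 _ (heV i).1) (hKe i)]
    push_cast
    rfl
  have hf4 : ∀ i, F (E (E (E (E (e i))))) = ((xs i - 12 : ℝ) : ℂ) • E (E (E (e i))) := fun i => by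
    rw [S.F4 (hA0 _ (heV i).1) (hB0 _ (heV i).1) (hKe i)]
    push_cast
    rfl
  have hn2 : ∀ i, ‖E (E (e i))‖ ^ 2 = (xs i - 2) * ‖E (e i)‖ ^ 2 := fun i =>
    nrm S.adj (hf2 i)
  have hn3 : ∀ i, ‖E (E (E (e i)))‖ ^ 2 = (xs i - 6) * ‖E (E (e i))‖ ^ 2 := fun i =>
    nrm S.adj (hf3 i)
  have hx0 : ∀ i, 0 ≤ xs i := by
    intro i
    have h1 : 0 ≤ xs i * ‖e i‖ ^ 2 := by rw [← hn1]; positivity
    exact nonneg_of_mul_nonneg_left h1 (hnp i)
  have hx2 : ∀ i, xs i ≠ 2 := by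
    intro i h1
    refine hne i (hmpa _ (heV i).1 (Or.inl ?_) (heV i).2)
    rw [hKe, h1]
    norm_num
  have hx12 : ∀ i, xs i ≠ 12 := by
    intro i h1
    refine hne i (hmpa _ (heV i).1 (Or.inr ?_) (heV i).2)
    rw [hKe, h1]
    norm_num
  have hx6 : ∀ i, xs i ≠ 0 → 6 ≤ xs i := by
    intro i h1
    have hpos : 0 < xs i := lt_of_le_of_ne (hx0 i) (Ne.symm h1)
    have hE1 : 0 < ‖E (e i)‖ ^ 2 := by rw [hn1]; exact mul_pos hpos (hnp i)
    have h2 : 0 ≤ (xs i - 2) * ‖E (e i)‖ ^ 2 := by rw [← hn2]; positivity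
    have h3 : 0 ≤ xs i - 2 := nonneg_of_mul_nonneg_left h2 hE1
    have h4 : 0 < xs i - 2 := lt_of_le_of_ne h3 (fun h => hx2 i (by linarith))
    have hE2 : 0 < ‖E (E (e i))‖ ^ 2 := by rw [hn2]; exact mul_pos h4 hE1
    have h5 : 0 ≤ (xs i - 6) * ‖E (E (e i))‖ ^ 2 := by rw [← hn3]; positivity
    have h6 : 0 ≤ xs i - 6 := nonneg_of_mul_nonneg_left h5 hE2
    linarith
  have hP0 : ∀ i, xs i = 0 → P (e i) = e i := by
    intro i h1
    have h2 : ‖E (e i)‖ ^ 2 = 0 := by rw [hn1, h1, zero_mul]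
    have h3 : ‖F (e i)‖ ^ 2 = 0 := by rw [hn1', h1, zero_mul]
    exact hgen _ (hA0 _ (heV i).1) (hB0 _ (heV i).1)
      (norm_eq_zero.mp (pow_eq_zero_iff two_ne_zero |>.mp h2))
      (norm_eq_zero.mp (pow_eq_zero_iff two_ne_zero |>.mp h3))
  have hP1 : ∀ i, xs i ≠ 0 → P (e i) = 0 := by
    intro i h1
    have h2 : (xs i : ℂ) • P (e i) = 0 := by rw [← map_smul, ← hKe, hPE0]
    exact (smul_eq_zero.mp h2).resolve_left (by exact_mod_cast h1)
  -- expansion of f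
  obtain ⟨fv, hfv⟩ : ∃ fv : V, (fv : ρ.Sp) = f := ⟨⟨f, (hV f).2 ⟨hf, hsf⟩⟩, rfl⟩
  obtain ⟨c, hc⟩ : ∃ c : Fin N → ℂ, c = fun i => inner ℂ (bs i) fv := ⟨_, rfl⟩
  have hci : ∀ i, c i = inner ℂ (bs i) fv := fun i => by rw [hc]
  have hsum : ∀ d : Fin N → ℂ, (((∑ i, d i • bs i : V)) : ρ.Sp) = ∑ i, d i • e i := by
    intro d
    rw [Submodule.coe_sum]
    refine Finset.sum_congr rfl fun i _ => ?_
    rw [Submodule.coe_smul, hei]
  have hfe : f = ∑ i, c i • e i := by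
    rw [← hsum, ← hfv]
    congr 1
    rw [hc]
    exact (bs.sum_repr' fv).symm
  have hdcoef : ∀ (d : Fin N → ℂ) (i : Fin N), (inner ℂ (bs i) (∑ j, d j • bs j) : ℂ) = d i :=
    fun d i => bs.orthonormal.inner_right_fintype d i
  have hdn : ∀ d : Fin N → ℂ, ‖∑ i, d i • e i‖ ^ 2 = ∑ i, ‖d i‖ ^ 2 := by
    intro d
    rw [← hsum]
    change ‖(∑ i, d i • bs i : V)‖ ^ 2 = _
    rw [← bs.sum_sq_norm_inner_right]
    refine Finset.sum_congr rfl fun i _ => ?_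
    rw [hdcoef]
  have hPf : f - P f = ∑ i, (c i * (if xs i = 0 then 0 else 1)) • e i := by
    have h1 : f - P f = ∑ i, c i • (e i - P (e i)) := by
      conv_lhs => rw [hfe]
      rw [map_sum, ← Finset.sum_sub_distrib]
      refine Finset.sum_congr rfl fun i _ => ?_
      rw [map_smul, smul_sub]
    rw [h1]
    refine Finset.sum_congr rfl fun i _ => ?_
    by_cases h2 : xs i = 0
    · rw [hP0 i h2, sub_self, smul_zero, if_pos h2, mul_zero, zero_smul]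
    · rw [hP1 i h2, sub_zero, if_neg h2, mul_one]
  have hKf : E (F f) = ∑ i, (c i * (xs i : ℂ)) • e i := by
    conv_lhs => rw [hfe]
    rw [map_sum, map_sum]
    refine Finset.sum_congr rfl fun i _ => ?_
    rw [map_smul, map_smul, hKe, smul_smul]
  have hFf : ‖F f‖ ^ 2 = ∑ i, xs i * ‖c i‖ ^ 2 := by
    have h1 : (inner ℂ (F f) (F f) : ℂ) = ∑ i, ((xs i * ‖c i‖ ^ 2 : ℝ) : ℂ) := by
      rw [S.adj', hKf, inner_sum]
      refine Finset.sum_congr rfl fun i _ => ?_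
      rw [inner_smul_right]
      have h2 : (inner ℂ f (e i) : ℂ) = conj (c i) := by
        rw [hci, ← hfv, hei, ← Submodule.coe_inner]
        exact (inner_conj_symm (𝕜 := ℂ) fv (bs i)).symm
      rw [h2]
      have h3 : c i * conj (c i) = ((‖c i‖ ^ 2 : ℝ) : ℂ) := by
        rw [Complex.mul_conj']
        push_cast
        rfl
      have h4 : c i * (xs i : ℂ) * conj (c i) = (xs i : ℂ) * (c i * conj (c i)) := by ring
      rw [h4, h3]
      push_cast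
      rfl
    rw [inner_self_eq_norm_sq_to_K, ← Complex.ofReal_sum] at h1
    have h2 : ((‖F f‖ ^ 2 : ℝ) : ℂ) = ((∑ i, xs i * ‖c i‖ ^ 2 : ℝ) : ℂ) := by
      rw [← h1]
      push_cast
      rfl
    exact Complex.ofReal_injective h2
  constructor
  · rw [hPf, hdn, hFf, Finset.mul_sum]
    refine Finset.sum_le_sum fun i _ => ?_
    by_cases h1 : xs i = 0
    · rw [if_pos h1, mul_zero, norm_zero, h1]
      norm_num
    · rw [if_neg h1, mul_one]
      have h2 := hx6 i h1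
      have h3 : 0 ≤ ‖c i‖ ^ 2 := by positivity
      nlinarith
  · intro h4
    rw [hKf, hPf, Finset.smul_sum]
    refine Finset.sum_congr rfl fun i _ => ?_
    -- the relation for the coefficient
    have hrel : ((xs i - 12 : ℝ) : ℂ) * (((xs i - 6 : ℝ) : ℂ) * (((xs i - 2 : ℝ) : ℂ) *
        ((xs i : ℂ) * c i))) = 0 := by
      have h5 : (inner ℂ (E (E (E (E (e i))))) (E (E (E (E f)))) : ℂ) = 0 := by
        rw [h4, inner_zero_right]
      have hFe : F (E (e i)) = (xs i : ℂ) • e i := by rw [hFE _ (heV i).1, hKe]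
      have hc' : (inner ℂ (e i) f : ℂ) = c i := by
        rw [hci, ← hfv, hei, ← Submodule.coe_inner]
      rw [← S.adj', hf4, inner_smul_left, ← S.adj', hf3, inner_smul_left, ← S.adj', hf2,
        inner_smul_left, ← S.adj', hFe, inner_smul_left, hc', Complex.conj_ofReal,
        Complex.conj_ofReal, Complex.conj_ofReal, Complex.conj_ofReal] at h5
      exact h5
    by_cases h1 : xs i = 0
    · rw [h1, if_pos rfl, Complex.ofReal_zero, mul_zero, zero_smul, smul_zero]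
    · rw [if_neg h1, mul_one, smul_smul]
      congr 1
      by_cases h6 : xs i = 6
      · rw [h6]
        push_cast
        ring
      · have k1 : ((xs i - 12 : ℝ) : ℂ) ≠ 0 := by
          rw [Complex.ofReal_ne_zero]
          exact sub_ne_zero.mpr (hx12 i)
        have k2 : ((xs i - 6 : ℝ) : ℂ) ≠ 0 := by
          rw [Complex.ofReal_ne_zero]
          exact sub_ne_zero.mpr h6
        have k3 : ((xs i - 2 : ℝ) : ℂ) ≠ 0 := by
          rw [Complex.ofReal_ne_zero]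
          exact sub_ne_zero.mpr (hx2 i)
        have k4 : (xs i : ℂ) ≠ 0 := by
          rw [Complex.ofReal_ne_zero]
          exact h1
        have h7 : c i = 0 := by
          have := (mul_eq_zero.mp hrel).resolve_left k1
          have := (mul_eq_zero.mp this).resolve_left k2
          have := (mul_eq_zero.mp this).resolve_left k3
          exact (mul_eq_zero.mp this).resolve_left k4
        rw [h7]
        ring

end Pool.Agent.GRA.H33
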