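import Pool.Agent.Helper33_GRA.Sl2

/-!
# GRA squad, row MPA: parity of the spin 1 and spin 3 vectors
-/

set_option autoImplicit false

open MeasureTheory Matrix Finset
open scoped ComplexConjugate

namespace Pool.Agent.GRA.H33

open Pool.Agent.Helper64_FR Pool.Agent.UTR Pool.Agent.BSE

theorem mpa (msh : MSHStmt) : MPAStmt := by
  intro n ρ D hD a b hab g hg hK
  obtain ⟨-, m2, m3, -, -, -⟩ := msh n ρ D hD
  have S := sl_of_der hD hab
  have S' := S.flip (adj_ap hD b b)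
  have hw := (m2 g).1 hg
  have hA : D (EE a a) g = 0 := by
    have h1 := hw a
    rwa [Complex.ofReal_zero, zero_smul] at h1
  have hB : D (EE b b) g = 0 := by
    have h1 := hw b
    rwa [Complex.ofReal_zero, zero_smul] at h1
  obtain ⟨E, hE⟩ : ∃ E, E = D (EE a b) := ⟨_, rfl⟩
  obtain ⟨F, hF⟩ : ∃ F, F = D (EE b a) := ⟨_, rfl⟩
  obtain ⟨A, hAd⟩ : ∃ A, A = D (EE a a) := ⟨_, rfl⟩
  obtain ⟨B, hBd⟩ : ∃ B, B = D (EE b b) := ⟨_, rfl⟩
  obtain ⟨s, hs⟩ : ∃ s, s = ρ.op (pm (Equiv.swap a b)) := ⟨_, rfl⟩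
  have hsA : ∀ v, s (A v) = B (s v) := by
    intro v
    rw [hs, hAd, hBd, m3, Equiv.swap_apply_left]
  have hsB : ∀ v, s (B v) = A (s v) := by
    intro v
    rw [hs, hAd, hBd, m3, Equiv.swap_apply_right]
  have hK' : E (F g) = (2 : ℂ) • g ∨ E (F g) = (12 : ℂ) • g := by
    rw [hE, hF]
    exact hK
  have hop : ∀ (t : ρ.Sp) (lam : ℂ), A t + B t - E t - F t = (2 * lam) • t →
      s t = Complex.exp (((Real.pi : ℝ) * Complex.I) * lam) • t := by
    intro t lam ht
    rw [hs]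
    exact op_swap hD hab (by rw [← hE, ← hF, ← hAd, ← hBd]; exact ht)
  rw [← hs]
  rw [← hE, ← hF, ← hAd, ← hBd] at S S'
  rw [← hAd] at hA
  rw [← hBd] at hB
  have hFE : F (E g) = E (F g) := by rw [S.FE, hA, hB, sub_zero, add_zero]
  obtain ⟨w₀, hw₀⟩ : ∃ w₀, w₀ = s g + g := ⟨_, rfl⟩
  have hAw : A w₀ = 0 := by
    rw [hw₀, map_add, hA, add_zero, ← hsB, hB, map_zero]
  have o1 : ∀ (v : ρ.Sp) (m : ℂ), m ≠ 0 → A v = m • v → (inner ℂ w₀ v : ℂ) = 0 :=
    fun v m hm hv => orth S.self hAw hm hv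
  have o2 : ∀ (v : ρ.Sp) (m : ℂ), m ≠ 0 → B v = m • v → (inner ℂ w₀ (s v) : ℂ) = 0 := by
    intro v m hm hv
    refine orth S.self hAw hm ?_
    rw [← hsB, hv, map_smul]
  have fin : ∀ (c : ℂ) (r : ρ.Sp), c ≠ 0 → (inner ℂ w₀ r : ℂ) = 0 →
      (inner ℂ w₀ (s r) : ℂ) = 0 → s (c • g + r) = -(c • g + r) → s g = -g := by
    intro c r hc h1 h2 h3
    have h4 : (inner ℂ w₀ (s (c • g + r) + (c • g + r)) : ℂ) = 0 := by
      rw [h3, neg_add_cancel, inner_zero_right]
    rw [map_add, map_smul] at h4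
    have h5 : c • s g + s r + (c • g + r) = c • w₀ + (s r + r) := by
      rw [hw₀]
      module
    rw [h5, inner_add_right, inner_smul_right, inner_add_right, h1, h2, add_zero, add_zero] at h4
    have h6 := (mul_eq_zero.mp h4).resolve_left hc
    have h7 := inner_self_eq_zero.mp h6
    rw [hw₀] at h7
    exact eq_neg_of_add_eq_zero_left h7
  -- the ladder
  have a1A : A (E g) = (1 : ℂ) • E g := by rw [S.A1 hA hB, one_smul]
  have a1B : B (E g) = (-1 : ℂ) • E g := by rw [S.B1 hA hB, neg_one_smul]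
  have b1A : A (F g) = (-1 : ℂ) • F g := by rw [S'.B1 hB hA, neg_one_smul]
  have b1B : B (F g) = (1 : ℂ) • F g := by rw [S'.A1 hB hA, one_smul]
  rcases hK' with hx | hx
  · have hx' : F (E g) = (2 : ℂ) • g := by rw [hFE, hx]
    have a2 : E (E g) = 0 := zero_of_adj S.adj (by
      rw [S.F2 hA hB hx, sub_self, zero_smul])
    have b2 : F (F g) = 0 := zero_of_adj S'.adj (by
      rw [S'.F2 hB hA hx', sub_self, zero_smul])
    have h1 := hop ((2 : ℂ) • g + (E g + F g)) (-1) (by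
      simp only [map_add, map_smul, hA, hB, a1A, a1B, b1A, b1B, hx, hx', a2, b2]
      module)
    have h2 : Complex.exp (((Real.pi : ℝ) * Complex.I) * (-1)) = -1 := by
      rw [mul_neg_one, Complex.exp_neg, Complex.exp_pi_mul_I]
      norm_num
    rw [h2, neg_one_smul] at h1
    refine fin 2 (E g + F g) (by norm_num) ?_ ?_ h1
    · rw [inner_add_right, o1 _ 1 one_ne_zero a1A, o1 _ (-1) (by norm_num) b1A, add_zero]
    · rw [map_add, inner_add_right, o2 _ (-1) (by norm_num) a1B, o2 _ 1 one_ne_zero b1B,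
        add_zero]
  · have hx' : F (E g) = (12 : ℂ) • g := by rw [hFE, hx]
    have a2A : A (E (E g)) = (2 : ℂ) • E (E g) := S.A2 hA hB
    have a2B : B (E (E g)) = (-2 : ℂ) • E (E g) := by rw [S.B2 hA hB, neg_smul]
    have a3A : A (E (E (E g))) = (3 : ℂ) • E (E (E g)) := S.A3 hA hB
    have a3B : B (E (E (E g))) = (-3 : ℂ) • E (E (E g)) := by rw [S.B3 hA hB, neg_smul]
    have b2B : B (F (F g)) = (2 : ℂ) • F (F g) := S'.A2 hB hA
    have b2A : A (F (F g)) = (-2 : ℂ) • F (F g) := by rw [S'.B2 hB hA, neg_smul]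
    have b3B : B (F (F (F g))) = (3 : ℂ) • F (F (F g)) := S'.A3 hB hA
    have b3A : A (F (F (F g))) = (-3 : ℂ) • F (F (F g)) := by rw [S'.B3 hB hA, neg_smul]
    have a4 : E (E (E (E g))) = 0 := zero_of_adj S.adj (by
      rw [S.F4 hA hB hx, sub_self, zero_smul])
    have b4 : F (F (F (F g))) = 0 := zero_of_adj S'.adj (by
      rw [S'.F4 hB hA hx', sub_self, zero_smul])
    have fa2 := S.F2 hA hB hx
    have fa3 := S.F3 hA hB hx
    have eb2 := S'.F2 hB hA hx'
    have eb3 := S'.F3 hB hA hx'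
    have h1 := hop ((20 : ℂ) • g + ((5 : ℂ) • E g + (5 : ℂ) • F g + E (E g) + F (F g) +
      (1 / 6 : ℂ) • E (E (E g)) + (1 / 6 : ℂ) • F (F (F g)))) (-3) (by
      simp only [map_add, map_smul, hA, hB, a1A, a1B, b1A, b1B, a2A, a2B, a3A, a3B, b2A, b2B,
        b3A, b3B, hx, hx', a4, b4, fa2, fa3, eb2, eb3]
      module)
    have h2 : Complex.exp (((Real.pi : ℝ) * Complex.I) * (-3)) = -1 := by
      have h3 : ((Real.pi : ℝ) * Complex.I) * (-3)
          = -((Real.pi : ℝ) * Complex.I + (Real.pi : ℝ) * Complex.I +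
            (Real.pi : ℝ) * Complex.I) := by ring
      rw [h3, Complex.exp_neg, Complex.exp_add, Complex.exp_add, Complex.exp_pi_mul_I]
      norm_num
    rw [h2, neg_one_smul] at h1
    refine fin 20 _ (by norm_num) ?_ ?_ h1
    · simp only [inner_add_right, inner_smul_right]
      rw [o1 _ 1 one_ne_zero a1A, o1 _ (-1) (by norm_num) b1A, o1 _ 2 two_ne_zero a2A,
        o1 _ (-2) (by norm_num) b2A, o1 _ 3 three_ne_zero a3A, o1 _ (-3) (by norm_num) b3A]
      norm_num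
    · simp only [map_add, map_smul, inner_add_right, inner_smul_right]
      rw [o2 _ (-1) (by norm_num) a1B, o2 _ 1 one_ne_zero b1B, o2 _ (-2) (by norm_num) a2B,
        o2 _ 2 two_ne_zero b2B, o2 _ (-3) (by norm_num) a3B, o2 _ 3 three_ne_zero b3B]
      norm_num

end Pool.Agent.GRA.H33
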