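import Pool.Agent.GRA.StmtsM
import Pool.Agent.Helper27_UTR.GEN

/-!
# GRA squad: the `SU(2)` ladder
-/

set_option autoImplicit false

open MeasureTheory Matrix Finset
open scoped ComplexConjugate

namespace Pool.Agent.GRA.H33

open Pool.Agent.Helper64_FR Pool.Agent.UTR Pool.Agent.BSE

/-- commutation relations and adjointness -/
structure SL {H : Type} [NormedAddCommGroup H] [InnerProductSpace ℂ H]
    (E F A B : H →L[ℂ] H) : Prop where
  EF : ∀ v, E (F v) = F (E v) + A v - B v
  AE : ∀ v, A (E v) = E (A v) + E v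
  AF : ∀ v, A (F v) = F (A v) - F v
  BE : ∀ v, B (E v) = E (B v) - E v
  BF : ∀ v, B (F v) = F (B v) + F v
  adj : ∀ v w, (inner ℂ (E v) w : ℂ) = inner ℂ v (F w)
  adj' : ∀ v w, (inner ℂ (F v) w : ℂ) = inner ℂ v (E w)
  self : ∀ v w, (inner ℂ (A v) w : ℂ) = inner ℂ v (A w)

variable {n : ℕ}

theorem comm_ap {ρ : URep n} {D : Matrix (Fin n) (Fin n) ℂ →ₗ[ℂ] (ρ.Sp →L[ℂ] ρ.Sp)}
    (hD : IsDer ρ D) {Z W : Matrix (Fin n) (Fin n) ℂ} (v : ρ.Sp) :
    D Z (D W v) = D W (D Z v) + D (Z * W - W * Z) v := by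
  have h1 := congrArg (fun T : ρ.Sp →L[ℂ] ρ.Sp => T v) (hD.comm_eq Z W)
  have h2 : D Z (D W v) - D W (D Z v) = D (Z * W - W * Z) v := h1
  rw [← h2]
  abel

theorem adj_ap {ρ : URep n} {D : Matrix (Fin n) (Fin n) ℂ →ₗ[ℂ] (ρ.Sp →L[ℂ] ρ.Sp)}
    (hD : IsDer ρ D) (i j : Fin n) (v w : ρ.Sp) :
    (inner ℂ (D (EE i j) v) w : ℂ) = inner ℂ v (D (EE j i) w) := by
  have h1 : star (D (EE i j)) = D (EE j i) := by
    rw [hD.star_eq, EE, Matrix.star_eq_conjTranspose, Matrix.conjTranspose_single, star_one]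
  rw [← h1, ContinuousLinearMap.star_eq_adjoint, ContinuousLinearMap.adjoint_inner_right]

theorem sl_of_der {ρ : URep n} {D : Matrix (Fin n) (Fin n) ℂ →ₗ[ℂ] (ρ.Sp →L[ℂ] ρ.Sp)}
    (hD : IsDer ρ D) {a b : Fin n} (hab : a ≠ b) :
    SL (D (EE a b)) (D (EE b a)) (D (EE a a)) (D (EE b b)) where
  EF v := by
    rw [comm_ap hD, EE, EE, Matrix.single_mul_single_same, Matrix.single_mul_single_same, mul_one,
      map_sub, ContinuousLinearMap.sub_apply]
    abel
  AE v := by
    rw [comm_ap hD, EE, EE, Matrix.single_mul_single_same,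
      Matrix.single_mul_single_of_ne (h := hab.symm), mul_one, sub_zero]
  AF v := by
    rw [comm_ap hD, EE, EE, Matrix.single_mul_single_same,
      Matrix.single_mul_single_of_ne (h := hab), mul_one, zero_sub, map_neg,
      ContinuousLinearMap.neg_apply, sub_eq_add_neg]
  BE v := by
    rw [comm_ap hD, EE, EE, Matrix.single_mul_single_same,
      Matrix.single_mul_single_of_ne (h := hab.symm), mul_one, zero_sub, map_neg,
      ContinuousLinearMap.neg_apply, sub_eq_add_neg]
  BF v := by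
    rw [comm_ap hD, EE, EE, Matrix.single_mul_single_same,
      Matrix.single_mul_single_of_ne (h := hab), mul_one, sub_zero]
  adj v w := adj_ap hD a b v w
  adj' v w := adj_ap hD b a v w
  self v w := adj_ap hD a a v w

namespace SL

variable {H : Type} [NormedAddCommGroup H] [InnerProductSpace ℂ H] {E F A B : H →L[ℂ] H}
  (S : SL E F A B)
include S

/-- exchange of the two indices -/
theorem flip (hBs : ∀ v w, (inner ℂ (B v) w : ℂ) = inner ℂ v (B w)) : SL F E B A where
  EF v := by rw [S.EF]; abel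
  AE v := S.BF v
  AF v := S.BE v
  BE v := S.AF v
  BF v := S.AE v
  adj := S.adj'
  adj' := S.adj
  self := hBs

theorem FE (v : H) : F (E v) = E (F v) - A v + B v := by
  rw [S.EF]; abel

variable {g : H} (hA : A g = 0) (hB : B g = 0) {x : ℂ} (hx : E (F g) = x • g)
include hA hB

theorem A1 : A (E g) = E g := by rw [S.AE, hA, map_zero, zero_add]

theorem B1 : B (E g) = -E g := by rw [S.BE, hB, map_zero, zero_sub]

theorem A2 : A (E (E g)) = (2 : ℂ) • E (E g) := by
  rw [S.AE, S.A1 hA hB, two_smul]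

theorem B2 : B (E (E g)) = -((2 : ℂ) • E (E g)) := by
  rw [S.BE, S.B1 hA hB, map_neg, two_smul]
  abel

theorem A3 : A (E (E (E g))) = (3 : ℂ) • E (E (E g)) := by
  rw [S.AE, S.A2 hA hB, map_smul]
  module

theorem B3 : B (E (E (E g))) = -((3 : ℂ) • E (E (E g))) := by
  rw [S.BE, S.B2 hA hB, map_neg, map_smul]
  module

include hx

theorem F1 : F (E g) = x • g := by
  rw [S.FE, hA, hB, hx, sub_zero, add_zero]

theorem F2 : F (E (E g)) = (x - 2) • E g := by
  rw [S.FE, S.F1 hA hB hx, S.A1 hA hB, S.B1 hA hB, map_smul]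
  module

theorem F3 : F (E (E (E g))) = (x - 6) • E (E g) := by
  rw [S.FE, S.F2 hA hB hx, S.A2 hA hB, S.B2 hA hB, map_smul]
  module

theorem F4 : F (E (E (E (E g)))) = (x - 12) • E (E (E g)) := by
  rw [S.FE, S.F3 hA hB hx, S.A3 hA hB, S.B3 hA hB, map_smul]
  module

end SL

theorem zero_of_adj {H : Type} [NormedAddCommGroup H] [InnerProductSpace ℂ H] {E F : H →L[ℂ] H}
    (hadj : ∀ v w, (inner ℂ (E v) w : ℂ) = inner ℂ v (F w)) {v : H} (h : F (E v) = 0) :
    E v = 0 := by
  have h1 : (inner ℂ (E v) (E v) : ℂ) = 0 := by rw [hadj, h, inner_zero_right]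
  exact inner_self_eq_zero.mp h1

/-- vectors of weight zero are orthogonal to vectors of nonzero weight -/
theorem orth {H : Type} [NormedAddCommGroup H] [InnerProductSpace ℂ H] {A : H →L[ℂ] H}
    (hself : ∀ v w, (inner ℂ (A v) w : ℂ) = inner ℂ v (A w)) {w v : H} (hw : A w = 0) {m : ℂ}
    (hm : m ≠ 0) (hv : A v = m • v) : (inner ℂ w v : ℂ) = 0 := by
  have h1 : (inner ℂ w (A v) : ℂ) = 0 := by rw [← hself, hw, inner_zero_left]
  rw [hv, inner_smul_right] at h1
  exact (mul_eq_zero.mp h1).resolve_left hm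

theorem exp_apply_eigen {H : Type*} [NormedAddCommGroup H] [NormedSpace ℂ H] [CompleteSpace H]
    (T : H →L[ℂ] H) (v : H) (lam : ℂ) (h : T v = lam • v) :
    NormedSpace.exp T v = Complex.exp lam • v := by
  have h1 : HasSum (fun m : ℕ => ((m.factorial : ℂ)⁻¹) • T ^ m) (NormedSpace.exp T) :=
    NormedSpace.exp_series_hasSum_exp' (𝕂 := ℂ) T
  have h2 : HasSum (fun m : ℕ => (((m.factorial : ℂ)⁻¹) • T ^ m) v) (NormedSpace.exp T v) :=
    (ContinuousLinearMap.apply ℂ H v).hasSum h1
  have h3 : HasSum (fun m : ℕ => ((m.factorial : ℂ)⁻¹) • lam ^ m) (NormedSpace.exp lam) :=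
    NormedSpace.exp_series_hasSum_exp' (𝕂 := ℂ) lam
  rw [← Complex.exp_eq_exp_ℂ] at h3
  have h4 := h3.smul_const v
  have hpow : ∀ m : ℕ, (T ^ m) v = lam ^ m • v := by
    intro m
    induction m with
    | zero => simp
    | succ m ih =>
      have h5 : (T ^ (m + 1)) v = (T ^ m) (T v) := by
        rw [pow_succ]
        rfl
      rw [h5, h, map_smul, ih, smul_smul, pow_succ, mul_comm]
  have h6 : (fun m : ℕ => (((m.factorial : ℂ)⁻¹) • T ^ m) v) =
      fun m : ℕ => (((m.factorial : ℂ)⁻¹) • lam ^ m) • v := by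
    funext m
    change ((m.factorial : ℂ)⁻¹) • (T ^ m) v = _
    rw [hpow, smul_smul, smul_eq_mul]
  rw [h6] at h2
  exact h2.unique h4

/-- the idempotent of the antisymmetric vector -/
noncomputable def qm (a b : Fin n) : Matrix (Fin n) (Fin n) ℂ :=
  (1 / 2 : ℂ) • (EE a a + EE b b - EE a b - EE b a)

theorem qm_idem {a b : Fin n} (hab : a ≠ b) : qm a b * qm a b = qm a b := by
  have h1 : (EE a a + EE b b - EE a b - EE b a : Matrix (Fin n) (Fin n) ℂ) *
      (EE a a + EE b b - EE a b - EE b a) = (2 : ℂ) • (EE a a + EE b b - EE a b - EE b a) := by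
    have e : ∀ i j k l : Fin n, (EE i j * EE k l : Matrix (Fin n) (Fin n) ℂ)
        = if j = k then EE i l else 0 := by
      intro i j k l
      by_cases h : j = k
      · subst h
        rw [if_pos rfl, EE, EE, Matrix.single_mul_single_same, mul_one]
      · rw [if_neg h, EE, EE, Matrix.single_mul_single_of_ne (h := h)]
    simp only [mul_add, add_mul, sub_mul, mul_sub, e, if_true, if_neg hab, if_neg hab.symm]
    module
  rw [qm, smul_mul_smul_comm, h1, smul_smul]
  norm_num

theorem qm_star (a b : Fin n) : star (qm a b) = qm a b := by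
  rw [qm, star_smul, star_sub, star_sub, star_add]
  simp only [EE, Matrix.star_eq_conjTranspose, Matrix.conjTranspose_single, star_one]
  have h1 : star (1 / 2 : ℂ) = 1 / 2 := by simp
  rw [h1]
  congr 1
  abel

theorem pmM_swap {a b : Fin n} (hab : a ≠ b) :
    pmM (Equiv.swap a b) = 1 + (-2 : ℂ) • qm a b := by
  have h0 : (-2 : ℂ) • qm a b = -(EE a a + EE b b - EE a b - EE b a) := by
    rw [qm, smul_smul]
    norm_num
  rw [h0]
  ext i j
  simp only [pmM, Matrix.of_apply, Matrix.add_apply, Matrix.neg_apply, Matrix.sub_apply, EE,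
    Matrix.single_apply, Matrix.one_apply]
  by_cases h1 : j = a
  · subst h1
    rw [Equiv.swap_apply_left]
    by_cases h2 : i = j
    · subst h2
      simp [hab, hab.symm]
    · by_cases h3 : i = b
      · subst h3
        simp [hab, hab.symm]
      · have h2' : ¬ j = i := fun h => h2 h.symm
        have h3' : ¬ b = i := fun h => h3 h.symm
        simp [h2, h3, h2', h3', hab, hab.symm]
  · by_cases h2 : j = b
    · subst h2
      rw [Equiv.swap_apply_right]
      by_cases h3 : i = a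
      · subst h3
        simp [hab, hab.symm]
      · by_cases h4 : i = j
        · subst h4
          simp [hab, hab.symm]
        · have h3' : ¬ a = i := fun h => h3 h.symm
          have h4' : ¬ j = i := fun h => h4 h.symm
          simp [h3, h4, h3', h4', hab, hab.symm]
    · rw [Equiv.swap_apply_of_ne_of_ne h1 h2]
      have h1' : ¬ a = j := fun h => h1 h.symm
      have h2' : ¬ b = j := fun h => h2 h.symm
      simp [h1', h2']

/-- the action of the transposition on an eigenvector of `D (qm a b)` -/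
theorem op_swap {ρ : URep n} {D : Matrix (Fin n) (Fin n) ℂ →ₗ[ℂ] (ρ.Sp →L[ℂ] ρ.Sp)}
    (hD : IsDer ρ D) {a b : Fin n} (hab : a ≠ b) {t : ρ.Sp} {lam : ℂ}
    (ht : D (EE a a) t + D (EE b b) t - D (EE a b) t - D (EE b a) t = (2 * lam) • t) :
    ρ.op (pm (Equiv.swap a b)) t = Complex.exp (((Real.pi : ℝ) * Complex.I) * lam) • t := by
  have hstar : star (((Real.pi : ℝ) * Complex.I : ℂ) • qm a b)
      = -(((Real.pi : ℝ) * Complex.I : ℂ) • qm a b) := by
    rw [star_smul, qm_star, ← neg_smul]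
    congr 1
    simp
  have hexp : ((pm (Equiv.swap a b) : UU n) : Matrix (Fin n) (Fin n) ℂ)
      = NormedSpace.exp (((Real.pi : ℝ) * Complex.I : ℂ) • qm a b) := by
    rw [H27.mexp_idem _ (qm_idem hab), Complex.exp_pi_mul_I]
    have h1 : ((-1 : ℂ) - 1) = -2 := by norm_num
    rw [h1]
    exact pmM_swap hab
  rw [hD.exp_eq _ _ hstar hexp]
  apply exp_apply_eigen
  have h1 : D (qm a b) t = lam • t := by
    have h2 : D (qm a b) t
        = (1 / 2 : ℂ) • (D (EE a a) t + D (EE b b) t - D (EE a b) t - D (EE b a) t) := by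
      rw [qm, map_smul, map_sub, map_sub, map_add]
      rfl
    rw [h2, ht, smul_smul]
    congr 1
    ring
  rw [map_smul]
  change ((Real.pi : ℝ) * Complex.I : ℂ) • (D (qm a b) t) = _
  rw [h1, smul_smul]

end Pool.Agent.GRA.H33
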